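import Pool.Agent.Helper85.QT.St1

/-!
Project QT (stage 2 of QD, MP_d112a4_gt), module PK1: eigenvalue of the kernel `ch^(-s)` on `t^σ`.
-/

set_option autoImplicit false

open MeasureTheory Matrix Set Topology Filter
open scoped ENNReal ComplexConjugate

namespace Pool.Agent.Helper29.QT

open Pool.Agent.Helper85.QT Pool.Agent.Helper86.QA

private theorem radial {a s : ℝ} (ha : 0 < a) (hs : 1 < s) :
    ∫⁻ r in Ioi (0 : ℝ), ENNReal.ofReal (r * (r ^ 2 + a) ^ (-s)) =
      ENNReal.ofReal (a ^ (1 - s) / (2 * (s - 1))) := by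
  have hpos : ∀ r : ℝ, 0 < r ^ 2 + a := fun r => by positivity
  have hs1 : (0 : ℝ) < s - 1 := by linarith
  have hderiv : ∀ x ∈ Ici (0 : ℝ), HasDerivAt (fun r : ℝ => -((r ^ 2 + a) ^ (1 - s) / (2 * (s - 1))))
      (x * (x ^ 2 + a) ^ (-s)) x := by
    intro x _
    have h1 : HasDerivAt (fun r : ℝ => r ^ 2 + a) (2 * x) x := by
      simpa using (hasDerivAt_pow 2 x).add_const a
    have h2 := (h1.rpow_const (p := 1 - s) (Or.inl (hpos x).ne')).div_const (2 * (s - 1))
    have h3 := h2.neg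
    refine h3.congr_deriv ?_
    have h4 : 1 - s - 1 = -s := by ring
    rw [h4]
    field_simp
    ring
  have hg' : ∀ x ∈ Ioi (0 : ℝ), 0 ≤ x * (x ^ 2 + a) ^ (-s) := by
    intro x hx
    have hx' : (0 : ℝ) < x := hx
    have := Real.rpow_nonneg (hpos x).le (-s)
    positivity
  have hlim : Tendsto (fun r : ℝ => -((r ^ 2 + a) ^ (1 - s) / (2 * (s - 1)))) atTop (𝓝 0) := by
    have h1 : Tendsto (fun r : ℝ => r ^ 2 + a) atTop atTop :=
      tendsto_atTop_add_const_right _ _ (tendsto_pow_atTop two_ne_zero)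
    have h2 := (tendsto_rpow_neg_atTop hs1).comp h1
    have h3 := (h2.div_const (2 * (s - 1))).neg
    rw [zero_div, neg_zero] at h3
    refine h3.congr fun r => ?_
    show -((r ^ 2 + a) ^ (-(s - 1)) / (2 * (s - 1))) = _
    rw [neg_sub]
  have h1 := integral_Ioi_of_hasDerivAt_of_nonneg' hderiv hg' hlim
  have h2 := integrableOn_Ioi_deriv_of_nonneg' hderiv hg' hlim
  rw [← ofReal_integral_eq_lintegral_ofReal h2
    ((ae_restrict_mem measurableSet_Ioi).mono fun x hx => hg' x hx), h1]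
  congr 1
  simp

private theorem plane {a s : ℝ} (ha : 0 < a) (hs : 1 < s) :
    ∫⁻ z : ℂ, ENNReal.ofReal ((‖z‖ ^ 2 + a) ^ (-s)) =
      ENNReal.ofReal (Real.pi * a ^ (1 - s) / (s - 1)) := by
  rw [← Complex.lintegral_comp_polarCoord_symm]
  have h1 : ∀ p : ℝ × ℝ, ENNReal.ofReal p.1 • ENNReal.ofReal
      ((‖Complex.polarCoord.symm p‖ ^ 2 + a) ^ (-s)) =
      (fun r : ℝ => ENNReal.ofReal r * ENNReal.ofReal ((r ^ 2 + a) ^ (-s))) p.1 *
        (fun _ : ℝ => (1 : ℝ≥0∞)) p.2 := by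
    intro p
    rw [Complex.norm_polarCoord_symm, sq_abs, smul_eq_mul, mul_one]
  simp only [h1]
  have htar : polarCoord.target = Ioi (0 : ℝ) ×ˢ Ioo (-Real.pi) Real.pi := rfl
  have hm : Measurable (fun r : ℝ => ENNReal.ofReal r * ENNReal.ofReal ((r ^ 2 + a) ^ (-s))) := by
    fun_prop
  rw [htar, Measure.volume_eq_prod, ← Measure.prod_restrict]
  have h2 := lintegral_prod_mul (μ := (volume : Measure ℝ).restrict (Ioi 0))
    (ν := (volume : Measure ℝ).restrict (Ioo (-Real.pi) Real.pi))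
    (f := fun r : ℝ => ENNReal.ofReal r * ENNReal.ofReal ((r ^ 2 + a) ^ (-s)))
    (g := fun _ : ℝ => (1 : ℝ≥0∞)) hm.aemeasurable aemeasurable_const
  rw [h2]
  have h3 : ∫⁻ r in Ioi (0 : ℝ), ENNReal.ofReal r * ENNReal.ofReal ((r ^ 2 + a) ^ (-s)) =
      ∫⁻ r in Ioi (0 : ℝ), ENNReal.ofReal (r * (r ^ 2 + a) ^ (-s)) := by
    apply setLIntegral_congr_fun measurableSet_Ioi
    intro r hr
    have hr' : (0 : ℝ) < r := hr
    exact (ENNReal.ofReal_mul hr'.le).symm
  rw [h3, radial ha hs, lintegral_one, Measure.restrict_apply_univ, Real.volume_Ioo,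
    ← ENNReal.ofReal_mul (div_nonneg (Real.rpow_nonneg ha.le _) (by linarith))]
  congr 1
  have hs1 : s - 1 ≠ 0 := by linarith
  field_simp
  ring

private theorem ch_oo (y : Pt) : ch oo y = (‖y.1‖ ^ 2 + (1 + y.2 ^ 2)) / (2 * y.2) := by
  unfold ch oo
  simp only [zero_sub, norm_neg, one_pow, mul_one]
  rw [add_assoc]

private theorem fmeas (x : Pt) (s σ : ℝ) :
    Measurable (fun y : Pt => ENNReal.ofReal (ch x y ^ (-s) * y.2 ^ σ)) := by
  unfold ch
  have h1 : Measurable (fun y : Pt => y.1) := measurable_fst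
  have h2 : Measurable (fun y : Pt => y.2) := measurable_snd
  have h3 : Measurable (fun y : Pt => (‖x.1 - y.1‖ ^ 2 + x.2 ^ 2 + y.2 ^ 2) / (2 * x.2 * y.2)) :=
    (((((h1.const_sub x.1).norm).pow_const 2).add_const _).add (h2.pow_const 2)).div
      (h2.const_mul _)
  exact ((h3.pow_const _).mul (h2.pow_const _)).ennreal_ofReal

private theorem slice1 {s σ t : ℝ} (hs : 1 < s) (ht : 0 < t) :
    ∫⁻ z : ℂ, ENNReal.ofReal (ch oo (z, t) ^ (-s) * t ^ σ) =
      ENNReal.ofReal ((2 * t) ^ s * t ^ σ * (Real.pi * (1 + t ^ 2) ^ (1 - s) / (s - 1))) := by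
  have h1 : ∀ z : ℂ, ENNReal.ofReal (ch oo (z, t) ^ (-s) * t ^ σ) =
      ENNReal.ofReal ((2 * t) ^ s * t ^ σ) * ENNReal.ofReal ((‖z‖ ^ 2 + (1 + t ^ 2)) ^ (-s)) := by
    intro z
    rw [← ENNReal.ofReal_mul (by positivity), ch_oo]
    congr 1
    show ((‖z‖ ^ 2 + (1 + t ^ 2)) / (2 * t)) ^ (-s) * t ^ σ = _
    rw [Real.div_rpow (by positivity) (by positivity), Real.rpow_neg (by positivity : 0 ≤ 2 * t),
      div_inv_eq_mul]
    ring
  simp only [h1]
  rw [lintegral_const_mul _ (by fun_prop), plane (by positivity) hs,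
    ← ENNReal.ofReal_mul (by positivity)]

/-- the integral at the base point is bounded -/
private theorem be_bd (hVOL : StVOL) {s σ : ℝ} (h1 : 1 ≤ σ) (h2 : σ < s) (h3 : s ≤ 2) :
    ∫⁻ y, ENNReal.ofReal (ch oo y ^ (-s) * y.2 ^ σ) ∂vol ≤
      ENNReal.ofReal (8 * Real.pi / (s - σ) ^ 2) := by
  have hs : 1 < s := lt_of_le_of_lt h1 h2
  have hs1 : 0 < s - 1 := by linarith
  have hpi := Real.pi_pos
  rw [hVOL.1 _ (fmeas oo s σ)]
  set C : ℝ := 4 * (Real.pi / (s - 1)) with hC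
  have hC0 : 0 ≤ C := by positivity
  have key : ∀ t : ℝ, 0 < t → ENNReal.ofReal (1 / t ^ 3) *
      ∫⁻ z : ℂ, ENNReal.ofReal (ch oo (z, t) ^ (-s) * t ^ σ) ≤
      ENNReal.ofReal (C * (t ^ (s + σ - 3) * (1 + t ^ 2) ^ (1 - s))) := by
    intro t ht
    rw [slice1 hs ht, ← ENNReal.ofReal_mul (by positivity)]
    apply ENNReal.ofReal_le_ofReal
    rw [Real.mul_rpow (by norm_num) ht.le]
    have e1 : t ^ (s + σ - 3) = t ^ s * t ^ σ * (1 / t ^ 3) := by
      rw [Real.rpow_sub ht, Real.rpow_add ht, show (3 : ℝ) = ((3 : ℕ) : ℝ) by norm_num,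
        Real.rpow_natCast]
      ring
    have e2 : (2 : ℝ) ^ s ≤ 4 := by
      calc (2 : ℝ) ^ s ≤ (2 : ℝ) ^ (2 : ℝ) := Real.rpow_le_rpow_of_exponent_le (by norm_num) h3
        _ = 4 := by norm_num
    rw [e1, hC]
    have e3 : 1 / t ^ 3 * (2 ^ s * t ^ s * t ^ σ * (Real.pi * (1 + t ^ 2) ^ (1 - s) / (s - 1))) =
        2 ^ s * ((Real.pi / (s - 1)) * (t ^ s * t ^ σ * (1 / t ^ 3) * (1 + t ^ 2) ^ (1 - s))) := by
      ring
    rw [e3]
    have e4 : 4 * (Real.pi / (s - 1)) * (t ^ s * t ^ σ * (1 / t ^ 3) * (1 + t ^ 2) ^ (1 - s)) =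
        4 * ((Real.pi / (s - 1)) * (t ^ s * t ^ σ * (1 / t ^ 3) * (1 + t ^ 2) ^ (1 - s))) := by
      ring
    rw [e4]
    exact mul_le_mul_of_nonneg_right e2 (by positivity)
  have hsplit : Ioi (0 : ℝ) = Ioc 0 1 ∪ Ioi 1 := (Ioc_union_Ioi_eq_Ioi zero_le_one).symm
  have hA : ∫⁻ t in Ioc (0 : ℝ) 1, ENNReal.ofReal (C * (t ^ (s + σ - 3) * (1 + t ^ 2) ^ (1 - s))) ≤
      ENNReal.ofReal (C * (1 / (s + σ - 2))) := by
    have hint : IntegrableOn (fun t : ℝ => C * t ^ (s + σ - 3)) (Ioc 0 1) := by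
      have := (intervalIntegral.intervalIntegrable_rpow' (a := 0) (b := 1)
        (by linarith : -1 < s + σ - 3)).const_mul C
      exact (intervalIntegrable_iff_integrableOn_Ioc_of_le zero_le_one).1 this
    have hval : ∫ t in Ioc (0 : ℝ) 1, C * t ^ (s + σ - 3) = C * (1 / (s + σ - 2)) := by
      rw [← intervalIntegral.integral_of_le zero_le_one, intervalIntegral.integral_const_mul,
        integral_rpow (Or.inl (by linarith))]
      congr 1
      have e : s + σ - 3 + 1 = s + σ - 2 := by ring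
      rw [e, Real.one_rpow, Real.zero_rpow (by linarith)]
      ring
    rw [← hval, ofReal_integral_eq_lintegral_ofReal hint]
    · apply setLIntegral_mono' measurableSet_Ioc
      intro t ht
      apply ENNReal.ofReal_le_ofReal
      apply mul_le_mul_of_nonneg_left _ hC0
      have h4 : (1 + t ^ 2) ^ (1 - s) ≤ 1 :=
        Real.rpow_le_one_of_one_le_of_nonpos (by nlinarith [sq_nonneg t]) (by linarith)
      exact mul_le_of_le_one_right (Real.rpow_nonneg ht.1.le _) h4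
    · filter_upwards [ae_restrict_mem measurableSet_Ioc] with t ht
      exact mul_nonneg hC0 (Real.rpow_nonneg ht.1.le _)
  have hB : ∫⁻ t in Ioi (1 : ℝ), ENNReal.ofReal (C * (t ^ (s + σ - 3) * (1 + t ^ 2) ^ (1 - s))) ≤
      ENNReal.ofReal (C * (1 / (s - σ))) := by
    have hint : IntegrableOn (fun t : ℝ => C * t ^ (σ - s - 1)) (Ioi 1) :=
      (integrableOn_Ioi_rpow_of_lt (by linarith : σ - s - 1 < -1) zero_lt_one).const_mul C
    have hval : ∫ t in Ioi (1 : ℝ), C * t ^ (σ - s - 1) = C * (1 / (s - σ)) := by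
      rw [integral_const_mul, integral_Ioi_rpow_of_lt (by linarith : σ - s - 1 < -1) zero_lt_one]
      congr 1
      have e : σ - s - 1 + 1 = -(s - σ) := by ring
      rw [e, Real.one_rpow, neg_div_neg_eq]
    rw [← hval, ofReal_integral_eq_lintegral_ofReal hint]
    · apply setLIntegral_mono' measurableSet_Ioi
      intro t ht
      have ht1 : (1 : ℝ) < t := ht
      have ht0 : (0 : ℝ) < t := by linarith
      apply ENNReal.ofReal_le_ofReal
      apply mul_le_mul_of_nonneg_left _ hC0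
      have h4 : (1 + t ^ 2) ^ (1 - s) ≤ (t ^ 2) ^ (1 - s) :=
        Real.rpow_le_rpow_of_nonpos (by positivity) (by linarith) (by linarith)
      have h5 : (t ^ 2) ^ (1 - s) = t ^ (2 * (1 - s)) := by
        rw [Real.rpow_mul ht0.le, show (2 : ℝ) = ((2 : ℕ) : ℝ) by norm_num, Real.rpow_natCast]
      calc t ^ (s + σ - 3) * (1 + t ^ 2) ^ (1 - s) ≤ t ^ (s + σ - 3) * t ^ (2 * (1 - s)) := by
            rw [← h5]
            exact mul_le_mul_of_nonneg_left h4 (Real.rpow_nonneg ht0.le _)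
        _ = t ^ (σ - s - 1) := by
            rw [← Real.rpow_add ht0]
            congr 1
            ring
    · filter_upwards [ae_restrict_mem measurableSet_Ioi] with t ht
      have ht1 : (1 : ℝ) < t := ht
      exact mul_nonneg hC0 (Real.rpow_nonneg (by linarith) _)
  calc ∫⁻ t in Ioi (0 : ℝ), ENNReal.ofReal (1 / t ^ 3) *
        ∫⁻ z : ℂ, ENNReal.ofReal (ch oo (z, t) ^ (-s) * t ^ σ)
      ≤ ∫⁻ t in Ioi (0 : ℝ), ENNReal.ofReal (C * (t ^ (s + σ - 3) * (1 + t ^ 2) ^ (1 - s))) :=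
        setLIntegral_mono' measurableSet_Ioi fun t ht => key t ht
    _ ≤ ENNReal.ofReal (C * (1 / (s + σ - 2))) + ENNReal.ofReal (C * (1 / (s - σ))) := by
        rw [hsplit]
        exact (lintegral_union_le _ _ _).trans (add_le_add hA hB)
    _ = ENNReal.ofReal (C * (1 / (s + σ - 2)) + C * (1 / (s - σ))) := by
        rw [ENNReal.ofReal_add]
        · exact mul_nonneg hC0 (one_div_nonneg.2 (by linarith))
        · exact mul_nonneg hC0 (one_div_nonneg.2 (by linarith))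
    _ ≤ ENNReal.ofReal (8 * Real.pi / (s - σ) ^ 2) := by
        apply ENNReal.ofReal_le_ofReal
        have a1 : 0 < s - σ := by linarith
        have a2 : 0 < s + σ - 2 := by linarith
        have e : C * (1 / (s + σ - 2)) + C * (1 / (s - σ)) =
            8 * Real.pi / ((s + σ - 2) * (s - σ)) := by
          rw [hC]
          field_simp
          ring
        rw [e]
        apply div_le_div_of_nonneg_left (by positivity) (by positivity)
        rw [sq]
        exact mul_le_mul_of_nonneg_right (by linarith) a1.le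

private theorem oo_upP : oo ∈ up := by
  show (0 : ℝ) < 1
  norm_num

theorem hPK1 (hACT : Pool.Agent.Helper86.QA.StACT) (hCHI : Pool.Agent.Helper86.QA.StCHI)
    (hVOL : Pool.Agent.Helper86.QA.StVOL) : Pool.Agent.Helper85.QT.StPK1 := by
  intro s σ h1 h2 h3
  have hbd := be_bd hVOL h1 h2 h3
  set β : ℝ≥0∞ := ∫⁻ y, ENNReal.ofReal (ch oo y ^ (-s) * y.2 ^ σ) ∂vol with hβ
  have hfin : β ≠ ∞ := ne_top_of_le_ne_top ENNReal.ofReal_ne_top hbd
  refine ⟨β.toReal, ENNReal.toReal_nonneg, ?_, ?_⟩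
  · rw [← ENNReal.ofReal_le_ofReal_iff (by positivity), ENNReal.ofReal_toReal hfin]
    exact hbd
  intro g x hx
  obtain ⟨hA1, -, -, -, hA5, -⟩ := hACT
  have hk := hCHI.2.1
  have hV := hVOL.2.1
  have hu : ga g x ∈ up := (hA1 g x hx).2.1
  have hu0 : 0 < (ga g x).2 := hu
  set u := ga g x with hudef
  have hF := fmeas u s σ
  have e1 : ∫⁻ y, ENNReal.ofReal (ch x y ^ (-s) * (ga g y).2 ^ σ) ∂vol =
      ∫⁻ y, ENNReal.ofReal (ch u y ^ (-s) * y.2 ^ σ) ∂vol := by
    rw [← hV g _ hF]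
    apply lintegral_congr_ae
    filter_upwards [ae_up] with y hy
    rw [hudef, (hk g x hx y hy).1]
  have hoo : ga (gx u hu) oo = u := by
    rw [hA5 u hu oo]
    apply Prod.ext
    · show u.1 + (u.2 : ℂ) * 0 = u.1
      ring
    · show u.2 * 1 = u.2
      ring
  have e2 : ∫⁻ y, ENNReal.ofReal (ch u y ^ (-s) * y.2 ^ σ) ∂vol =
      ∫⁻ y, ENNReal.ofReal (u.2 ^ σ) * ENNReal.ofReal (ch oo y ^ (-s) * y.2 ^ σ) ∂vol := by
    rw [← hV (gx u hu) _ hF]
    apply lintegral_congr_ae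
    filter_upwards [ae_up] with y hy
    have hy0 : 0 < y.2 := hy
    have h1 : ch u (ga (gx u hu) y) = ch oo y := by
      have h2 := (hk (gx u hu) oo oo_upP y hy).1
      rw [hoo] at h2
      exact h2
    rw [h1, hA5 u hu y, ← ENNReal.ofReal_mul (Real.rpow_nonneg hu0.le σ)]
    show ENNReal.ofReal (ch oo y ^ (-s) * (u.2 * y.2) ^ σ) = _
    rw [Real.mul_rpow hu0.le hy0.le]
    congr 1
    ring
  rw [e1, e2, lintegral_const_mul _ (fmeas oo s σ), ← hβ,
    ENNReal.ofReal_mul ENNReal.toReal_nonneg, ENNReal.ofReal_toReal hfin, mul_comm]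

end Pool.Agent.Helper29.QT
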