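import Pool.Agent.Helper85.QT.St1

/-!
Project QT (stage 2 of QD, MP_d112a4_gt), module SB2: near the hull there are limit points.
-/

set_option autoImplicit false

open MeasureTheory Matrix Set Topology
open scoped ENNReal ComplexConjugate

namespace Pool.Agent.Helper29.QT

open Pool.Agent.Helper85.QT Pool.Agent.Helper86.QA

theorem hSB2 (hSB0 : Pool.Agent.Helper85.QT.StSB0) (hSB1 : Pool.Agent.Helper85.QT.StSB1) :
    Pool.Agent.Helper85.QT.StSB2 := by
  intro Γ _ ρ A B hKD S hS x hx hsb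
  by_contra hcon
  push Not at hcon
  have ht : 0 < x.2 := hx
  have hr : 0 < (2 * S + 2) * x.2 := by positivity
  obtain ⟨-, -, -, -, h5, h6⟩ := hSB1 Γ ρ A B hKD
  have hdis : Disjoint (Metric.ball x.1 ((2 * S + 2) * x.2)) (LS A B) := by
    rw [Set.disjoint_left]
    intro ξ hξ hL
    have h1 := hcon ξ hL
    rw [Metric.mem_ball, dist_eq_norm, norm_sub_rev] at hξ
    linarith
  have hadm := h5 x.1 _ hr hdis
  have h7 := (h6 x hx).2.1 _ hadm
  obtain ⟨-, h8, -⟩ := hSB0
  have h9 := (h8 x.1 _ hr).2.2.2.2 x hx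
  rw [h9, sub_self, norm_zero] at h7
  have h10 : ((2 * S + 2) * x.2) ^ 2 - 0 ^ 2 - x.2 ^ 2 ≤ S * (2 * ((2 * S + 2) * x.2) * x.2) := by
    rw [div_le_iff₀ (by positivity)] at h7
    refine h7.trans ?_
    gcongr
  have h11 : 0 < x.2 ^ 2 := by positivity
  nlinarith [mul_nonneg hS h11.le]

end Pool.Agent.Helper29.QT
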