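import Pool.Agent.Helper85.QT.St1

/-!
Project QT (stage 2 of QD, MP_d112a4_gt), module SB6: cocompactness near the hull.
-/

set_option autoImplicit false

open MeasureTheory Matrix Set Topology
open scoped ENNReal ComplexConjugate

namespace Pool.Agent.Helper29.QT

open Pool.Agent.Helper85.QT Pool.Agent.Helper86.QA

private theorem ga_up6 (g : SL) {x : Pt} (hx : x ∈ up) : ga g x ∈ up := by
  have ht : 0 < x.2 := hx
  have hden : 0 < den g x := by
    unfold den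
    by_cases hc : g 1 0 = 0
    · have hdet := g.det_coe
      rw [Matrix.det_fin_two] at hdet
      have hd : g 1 1 ≠ 0 := by
        intro h
        have h' : (g : Mat) 1 1 = 0 := h
        have hc' : (g : Mat) 1 0 = 0 := hc
        rw [h', hc'] at hdet
        simp at hdet
      rw [hc]
      simp only [zero_mul, zero_add, norm_zero]
      have : 0 < ‖g 1 1‖ := norm_pos_iff.2 hd
      positivity
    · have : 0 < ‖g 1 0‖ := norm_pos_iff.2 hc
      positivity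
  show 0 < x.2 / den g x
  exact div_pos ht hden

private theorem low {A B : Set ℂ} {Γ : Type} [Group Γ] {ρ : Γ →* SL}
    (hSB0 : Pool.Agent.Helper85.QT.StSB0) (hSB1 : Pool.Agent.Helper85.QT.StSB1)
    (hKD : KD ρ A B) {S : ℝ} (hS : 0 ≤ S) {y : Pt} (hy : y ∈ up) (hsb : sb A B y ≤ S) {r : ℝ}
    (hr : 0 < r) (hb : Metric.ball y.1 r ⊆ A ∪ B) : r / (2 * S + 2) ≤ y.2 := by
  have ht : 0 < y.2 := hy
  obtain ⟨-, -, -, -, h5, h6⟩ := hSB1 Γ ρ A B hKD
  have hdis : Disjoint (Metric.ball y.1 r) (LS A B) := by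
    rw [Set.disjoint_left]
    intro ξ hξ hL
    exact hL (hb hξ)
  have h7 := (h6 y hy).2.1 _ (h5 y.1 _ hr hdis)
  obtain ⟨-, h8, -⟩ := hSB0
  have h9 := (h8 y.1 _ hr).2.2.2.2 y hy
  rw [h9, sub_self, norm_zero, div_le_iff₀ (by positivity)] at h7
  have h10 : r ^ 2 - 0 ^ 2 - y.2 ^ 2 ≤ S * (2 * r * y.2) := h7.trans (by gcongr)
  rw [div_le_iff₀ (by positivity)]
  by_contra hcon
  push Not at hcon
  have h11 : 2 * y.2 < r - 2 * S * y.2 := by nlinarith
  have h12 : 2 * y.2 < r := by nlinarith [mul_nonneg hS ht.le]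
  have h13 : 2 * y.2 * (2 * y.2) < r * (r - 2 * S * y.2) :=
    mul_lt_mul h12 h11.le (by positivity) hr.le
  nlinarith

theorem hSB6 (hSB0 : Pool.Agent.Helper85.QT.StSB0) (hSB1 : Pool.Agent.Helper85.QT.StSB1)
    (hSB3 : Pool.Agent.Helper85.QT.StSB3) : Pool.Agent.Helper85.QT.StSB6 := by
  intro Γ _ ρ A B hKD S hS
  obtain ⟨K0, KA, KB, τ, hK0, hK0u, hKA, hKAA, hKB, hKBB, hτ, hcov⟩ := hKD.cpt
  obtain ⟨rA, hrA, hA⟩ := hKA.exists_thickening_subset_open hKD.opA hKAA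
  obtain ⟨rB, hrB, hB⟩ := hKB.exists_thickening_subset_open hKD.opB hKBB
  refine ⟨K0 ∪ (KA ×ˢ Icc (rA / (2 * S + 2)) τ ∪ KB ×ˢ Icc (rB / (2 * S + 2)) τ),
    hK0.union ((hKA.prod isCompact_Icc).union (hKB.prod isCompact_Icc)), ?_, ?_⟩
  · rintro y (h | ⟨-, h⟩ | ⟨-, h⟩)
    · exact hK0u h
    · exact lt_of_lt_of_le (by positivity) h.1
    · exact lt_of_lt_of_le (by positivity) h.1
  · intro x hx hsb
    obtain ⟨γ, hγ⟩ := hcov x hx
    refine ⟨γ, ?_⟩
    have hy : ga (ρ γ) x ∈ up := ga_up6 _ hx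
    have hsb' : sb A B (ga (ρ γ) x) ≤ S := by
      rw [(hSB3 Γ ρ A B hKD).1 γ x hx]
      exact hsb
    show ga (ρ γ) x ∈ _
    rcases hγ with h | ⟨h1, h2⟩ | ⟨h1, h2⟩
    · exact Or.inl h
    · refine Or.inr (Or.inl ⟨h1, ?_, h2.le⟩)
      refine low hSB0 hSB1 hKD hS hy hsb' hrA ?_
      exact ((Metric.ball_subset_thickening h1 rA).trans hA).trans subset_union_left
    · refine Or.inr (Or.inr ⟨h1, ?_, h2.le⟩)
      refine low hSB0 hSB1 hKD hS hy hsb' hrB ?_
      exact ((Metric.ball_subset_thickening h1 rB).trans hB).trans subset_union_right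

end Pool.Agent.Helper29.QT
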